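import Pool.Agent.TH894.NE4

/-!
# Joint Koblitz numbers of the members of arbitrary polynomial families of elliptic curves

Let `E_{i, n} : Y ^ 2 = X ^ 3 + f_i(n) X + g_i(n)`, `i < m`, be any `m` families of elliptic curves, whose coefficients are arbitrary
polynomials with integer coefficients in `d` parameters `n = (n_1, …, n_d)`. For almost all parameters which arise from arbitrary
integers by changing a few digits, the number of the primes at which ALL the `E_{i, n}` have good reduction and
`#E_{i, n}(F_p) / t_i` is a prime is the expected one, for all `t_i`, all residue classes and all intervals at once, with the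
square root of the main term as error, and uniformly in ALL the families.

Nothing is used besides Mathlib in the statement.
-/

set_option autoImplicit false

namespace Pool.Agent.Results.MP_b89fd0_nt.PolynomialFamilies

open Finset

/-- The number of the points over `F_p` (together with the point at infinity) of `Y ^ 2 = X ^ 3 + a X + b`. -/
def points (p : ℕ) (a b : ℤ) : ℕ :=
  ((range p ×ˢ range p).filter (fun xy => (p : ℤ) ∣ (xy.2 : ℤ) ^ 2 - ((xy.1 : ℤ) ^ 3 + a * xy.1 + b))).card + 1

/-- The curve `Y ^ 2 = X ^ 3 + a X + b` is smooth modulo `p ≠ 2` and the number of its points over `F_p`, divided by `t`,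
is a prime number. -/
def IsKoblitz (t p : ℕ) (a b : ℤ) : Prop :=
  ¬ (p : ℤ) ∣ 2 * (4 * a ^ 3 + 27 * b ^ 2) ∧ t ∣ points p a b ∧ (points p a b / t).Prime

/-- The value of a polynomial in `d` variables at natural numbers. -/
noncomputable def val {d : ℕ} (n : Fin d → ℕ) (F : MvPolynomial (Fin d) ℤ) : ℤ := MvPolynomial.eval (fun l => (n l : ℤ)) F

/-- All the curves `Y ^ 2 = X ^ 3 + f i (n) X + g i (n)` are smooth modulo `p ≠ 2` and the numbers of their points over `F_p`,
divided by `t i`, are prime numbers. -/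
def AllKoblitz {d m : ℕ} (f g : Fin m → MvPolynomial (Fin d) ℤ) (t : Fin m → ℕ) (p : ℕ) (n : Fin d → ℕ) : Prop :=
  ∀ i, IsKoblitz (t i) p (val n (f i)) (val n (g i))

/-- The primes `p` with `z < p ≤ x` in the residue class of `a` modulo `q`. -/
def primes (z x q a : ℕ) : Finset ℕ := (Ioc z x).filter (fun p => p.Prime ∧ p % q = a)

open Classical in
/-- The number of the primes `z < p ≤ x`, `p ≡ a mod q`, of good reduction of all the curves (models) with the parameter `n`
for which the numbers of the points over `F_p`, divided by `t i`, are prime numbers. -/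
noncomputable def koblitz {d m : ℕ} (f g : Fin m → MvPolynomial (Fin d) ℤ) (n : Fin d → ℕ) (t : Fin m → ℕ) (z x q a : ℕ) : ℕ :=
  ((primes z x q a).filter (fun p => AllKoblitz f g t p n)).card

open Classical in
/-- The sum over the primes `z < p ≤ x`, `p ≡ a mod q`, of the proportion of the parameters modulo `p` for which all the curves
are smooth modulo `p` and the numbers of their points, divided by `t i`, are prime numbers. -/
noncomputable def expected {d m : ℕ} (f g : Fin m → MvPolynomial (Fin d) ℤ) (t : Fin m → ℕ) (z x q a : ℕ) : ℝ :=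
  ∑ p ∈ primes z x q a, (((Fintype.piFinset (fun _ : Fin d => range p)).filter (fun n => AllKoblitz f g t p n)).card : ℝ) /
    (p : ℝ) ^ d

/-- For all `t i`, all intervals `(z, x]` and all residue classes the number of the primes in question differs from the
expected number `V` by at most `(max 1 V) ^ (1 / 2) x ^ δ`. -/
noncomputable def Good {d m : ℕ} (f g : Fin m → MvPolynomial (Fin d) ℤ) (δ : ℝ) (x : ℕ) (n : Fin d → ℕ) : Prop :=
  ∀ (t : Fin m → ℕ) (z q a : ℕ), |(koblitz f g n t z x q a : ℝ) - expected f g t z x q a| ≤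
    Real.sqrt (max 1 (expected f g t z x q a)) * (x : ℝ) ^ δ

/-- The digit number `i` (counted from the right, beginning with `0`) of `n` in base `b`. -/
def digit (b i n : ℕ) : ℕ := n / b ^ i % b

/-- The number which arises from the number `N` with at most `K` digits in base `b`, if for every `i ∈ S`
the digit number `i` is replaced by `φ i`. -/
def change (b K N : ℕ) (φ : ℕ → ℕ) (S : Finset ℕ) : ℕ :=
  ∑ i ∈ range K, (if i ∈ S then φ i else digit b i N) * b ^ i

open Classical in
/-- The number of the choices of `r l` of `K l` positions for all `l < d` for which the vector of the numbers obtained by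
changing the digits of `N l` at the chosen positions (according to `φ l`) does not have the property `E`. -/
noncomputable def exceptions {d : ℕ} (b : ℕ) (K r N : Fin d → ℕ) (φ : Fin d → ℕ → ℕ) (E : (Fin d → ℕ) → Prop) : ℕ :=
  ((Fintype.piFinset (fun l => powersetCard (r l) (range (K l)))).filter
    (fun S => ¬ E (fun l => change b (K l) (N l) (φ l) (S l)))).card

lemma points_congr {p : ℕ} {a a' b b' : ℤ} (ha : (p : ℤ) ∣ a - a') (hb : (p : ℤ) ∣ b - b') : points p a b = points p a' b' := by
  unfold points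
  congr 2
  apply filter_congr
  intro xy _
  have h : (p : ℤ) ∣ ((xy.2 : ℤ) ^ 2 - ((xy.1 : ℤ) ^ 3 + a' * xy.1 + b')) - ((xy.2 : ℤ) ^ 2 - ((xy.1 : ℤ) ^ 3 + a * xy.1 + b)) := by
    have h1 : ((xy.2 : ℤ) ^ 2 - ((xy.1 : ℤ) ^ 3 + a' * xy.1 + b')) - ((xy.2 : ℤ) ^ 2 - ((xy.1 : ℤ) ^ 3 + a * xy.1 + b)) =
        (a - a') * xy.1 + (b - b') := by ring
    rw [h1]
    exact dvd_add (Dvd.dvd.mul_right ha _) hb
  constructor
  · intro h2
    have := dvd_add h h2
    rwa [sub_add_cancel] at this
  · intro h2
    have := dvd_sub h2 h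
    rwa [sub_sub_cancel] at this

lemma isKoblitz_congr (t : ℕ) {p : ℕ} {a a' b b' : ℤ} (ha : (p : ℤ) ∣ a - a') (hb : (p : ℤ) ∣ b - b') :
    IsKoblitz t p a b ↔ IsKoblitz t p a' b' := by
  unfold IsKoblitz
  rw [points_congr ha hb]
  have h : (p : ℤ) ∣ 2 * (4 * a ^ 3 + 27 * b ^ 2) - 2 * (4 * a' ^ 3 + 27 * b' ^ 2) := by
    have h1 : 2 * (4 * a ^ 3 + 27 * b ^ 2) - 2 * (4 * a' ^ 3 + 27 * b' ^ 2) =
        (a - a') * (8 * (a ^ 2 + a * a' + a' ^ 2)) + (b - b') * (54 * (b + b')) := by ring
    rw [h1]
    exact dvd_add (Dvd.dvd.mul_right ha _) (Dvd.dvd.mul_right hb _)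
  have h2 : (p : ℤ) ∣ 2 * (4 * a ^ 3 + 27 * b ^ 2) ↔ (p : ℤ) ∣ 2 * (4 * a' ^ 3 + 27 * b' ^ 2) := by
    constructor
    · intro h2
      have := dvd_sub h2 h
      rwa [sub_sub_cancel] at this
    · intro h2
      have := dvd_add h h2
      rwa [sub_add_cancel] at this
  rw [h2]

lemma val_congr {d p : ℕ} {n n' : Fin d → ℕ} (h : ∀ l, (p : ℤ) ∣ (n l : ℤ) - n' l) (F : MvPolynomial (Fin d) ℤ) :
    (p : ℤ) ∣ val n F - val n' F := by
  rw [← ZMod.intCast_zmod_eq_zero_iff_dvd, Int.cast_sub, sub_eq_zero]
  unfold val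
  have key : ∀ k : Fin d → ℕ, ((MvPolynomial.eval (fun l => (k l : ℤ)) F : ℤ) : ZMod p) =
      MvPolynomial.eval₂ (Int.castRingHom (ZMod p)) (fun l => ((k l : ℤ) : ZMod p)) F := by
    intro k
    have := MvPolynomial.eval₂_comp_left (Int.castRingHom (ZMod p)) (RingHom.id ℤ) (fun l => (k l : ℤ)) F
    rw [MvPolynomial.eval₂_id] at this
    simpa [Function.comp_def] using this
  rw [key n, key n']
  congr 1
  funext l
  rw [← sub_eq_zero, ← Int.cast_sub, ZMod.intCast_zmod_eq_zero_iff_dvd]
  exact h l

lemma allKoblitz_mod {d m : ℕ} (f g : Fin m → MvPolynomial (Fin d) ℤ) (t : Fin m → ℕ) (p : ℕ) (n : Fin d → ℕ) :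
    AllKoblitz f g t p n ↔ AllKoblitz f g t p (fun l => n l % p) := by
  unfold AllKoblitz
  apply forall_congr'
  intro i
  have h : ∀ l, (p : ℤ) ∣ (n l : ℤ) - ((n l % p : ℕ) : ℤ) := by
    intro l
    rw [Int.natCast_mod]
    exact Int.dvd_self_sub_emod
  exact isKoblitz_congr (t i) (val_congr h (f i)) (val_congr h (g i))

lemma points_le (p : ℕ) (a b : ℤ) : points p a b ≤ p * p + 1 := by
  unfold points
  refine Nat.succ_le_succ ((card_filter_le _ _).trans ?_)
  rw [card_product, card_range]

lemma not_isKoblitz {t p : ℕ} {a b : ℤ} (h : p * p + 1 < t) : ¬ IsKoblitz t p a b := by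
  rintro ⟨_, h2, h3⟩
  have h4 := Nat.le_of_dvd (by unfold points; omega) h2
  have := points_le p a b
  omega

/-- Trivial cases: at most one prime. -/
lemma good_of_card {d m : ℕ} (f g : Fin m → MvPolynomial (Fin d) ℤ) (δ : ℝ) (hδ : 0 < δ) (x : ℕ) (hx : 1 ≤ x) (n : Fin d → ℕ)
    (t : Fin m → ℕ) (z q a : ℕ) (h : (primes z x q a).card ≤ 1) :
    |(koblitz f g n t z x q a : ℝ) - expected f g t z x q a| ≤ Real.sqrt (max 1 (expected f g t z x q a)) * (x : ℝ) ^ δ := by
  classical
  have hx1 : (1 : ℝ) ≤ x := by exact_mod_cast hx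
  have h1 : (koblitz f g n t z x q a : ℝ) ≤ 1 := by
    have : koblitz f g n t z x q a ≤ 1 := (card_filter_le _ _).trans h
    exact_mod_cast this
  have h0 : (0 : ℝ) ≤ koblitz f g n t z x q a := Nat.cast_nonneg _
  have h2 : 0 ≤ expected f g t z x q a := sum_nonneg fun p _ => by positivity
  have h3 : expected f g t z x q a ≤ 1 := by
    have e : expected f g t z x q a = ∑ p ∈ primes z x q a, Pool.Agent.TH894.NE.Pr d p (fun n => AllKoblitz f g t p n) := by
      unfold expected Pool.Agent.TH894.NE.Pr Pool.Agent.TH894.NE.box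
      rfl
    rw [e]
    calc _ ≤ ∑ p ∈ primes z x q a, (1 : ℝ) := sum_le_sum fun p _ => Pool.Agent.TH894.NE.Pr_le_one d p _
      _ = ((primes z x q a).card : ℝ) := by simp
      _ ≤ 1 := by exact_mod_cast h
  have h4 : 1 ≤ Real.sqrt (max 1 (expected f g t z x q a)) * (x : ℝ) ^ δ := by
    have h5 : 1 ≤ Real.sqrt (max 1 (expected f g t z x q a)) := by
      rw [Real.one_le_sqrt]; exact le_max_left _ _
    have h6 : (1 : ℝ) ≤ (x : ℝ) ^ δ := Real.one_le_rpow hx1 hδ.le
    nlinarith
  refine le_trans ?_ h4
  rw [abs_le]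
  constructor <;> linarith

/-- Let a base `b ≥ 2`, a number `d ≥ 1` of parameters, a number `m` of families, `δ > 0` and an integer `A ≥ 0` be given. There are
`c > 0` and `y₀` such that for ALL polynomials `f i`, `g i`, `i < m`, in `d` variables with integer coefficients and for all integers
`r l`, `K l`, `y` with `2 r l ≤ K l` and `y ≥ y₀` the following holds.

Let `0 ≤ N l < b ^ K l` be arbitrary integers and prescribe for every position `j` a digit `φ l j` different from the digit of
`N l` in base `b` (`l < d`). If one chooses `r l` of the `K l` positions and replaces the digits of `N l` at these positions, then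
for all but at most a proportion `1 / y ^ A` of the choices the elliptic curves `Y ^ 2 = X ^ 3 + f i (n) X + g i (n)`, `i < m`, with
the parameters `n l` obtained have the following property: for all integers `x` with `y ≤ x ≤ exp (c r l)` (`l < d`), all `t i`,
all `z` and all `q`, `a` the number of the primes `z < p ≤ x`, `p ≡ a mod q`, for which for ALL `i < m` the number of the points of
the curve number `i` modulo `p` is `t i` times a prime number differs from its expected value `V` (the sum over the primes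
`z < p ≤ x`, `p ≡ a mod q`, of the proportion of the parameters modulo `p` with this property) by at most
`(max 1 V) ^ (1 / 2) x ^ δ`. -/
theorem result (b d m : ℕ) (hb : 2 ≤ b) (hd : 1 ≤ d) (δ : ℝ) (hδ : 0 < δ) (A : ℕ) : ∃ c : ℝ, 0 < c ∧ ∃ y₀ : ℕ,
    ∀ (f g : Fin m → MvPolynomial (Fin d) ℤ) (K r : Fin d → ℕ) (y : ℕ), (∀ l, 2 * r l ≤ K l) → y₀ ≤ y →
    ∀ N : Fin d → ℕ, (∀ l, N l < b ^ K l) → ∀ φ : Fin d → ℕ → ℕ, (∀ l j, φ l j < b ∧ φ l j ≠ digit b j (N l)) →
      (exceptions b K r N φ (fun n => ∀ x : ℕ, y ≤ x → (∀ l, (x : ℝ) ≤ Real.exp (c * r l)) → Good f g δ x n) : ℝ) ≤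
        1 / (y : ℝ) ^ A * ∏ l, ((K l).choose (r l) : ℝ) := by
  classical
  obtain ⟨c, hc, x₀, h⟩ := Pool.Agent.TH894.NE.law2 b d hb hd δ A ((3 * m + 5 : ℕ) : ℝ) hδ
  refine ⟨c, hc, x₀ + 3, fun f g K r y hrK hy N hN φ hφ => ?_⟩
  have hy0 : (0 : ℝ) < y := by exact_mod_cast (by omega : 0 < y)
  have h1 : 1 / (y : ℝ) ^ A = (y : ℝ) ^ (-(A : ℝ)) := by
    rw [Real.rpow_neg hy0.le, Real.rpow_natCast, one_div]
  rw [h1]
  unfold exceptions
  refine h r K y hrK (by omega) N hN φ hφ ((Fin m → ℕ) × ℕ × ℕ × ℕ)
    (fun x => if x < 2 then ∅ else Fintype.piFinset (fun _ : Fin m => range (x ^ 2 + 2)) ×ˢ (range x ×ˢ (range (x + 1) ×ˢ range (x + 1))))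
    ?_ ℕ (fun x l => primes l.2.1 x l.2.2.1 l.2.2.2) (fun _ p => p) ?_ ?_ (fun l p n => AllKoblitz f g l.1 p n) ?_ _
    (filter_subset _ _) ?_
  · intro x _
    show (((if x < 2 then ∅ else Fintype.piFinset (fun _ : Fin m => range (x ^ 2 + 2)) ×ˢ (range x ×ˢ (range (x + 1) ×ˢ range (x + 1))) :
      Finset ((Fin m → ℕ) × ℕ × ℕ × ℕ)).card : ℕ) : ℝ) ≤ _
    split_ifs with hx
    · rw [card_empty, Nat.cast_zero]
      positivity
    · push Not at hx
      rw [card_product, card_product, card_product, Fintype.card_piFinset, card_range, card_range, prod_const, card_range,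
        card_univ, Fintype.card_fin, Real.rpow_natCast]
      have e1 : x ^ 2 + 2 ≤ x ^ 3 := by nlinarith [Nat.pow_le_pow_left hx 2]
      have e2 : x + 1 ≤ x ^ 2 := by nlinarith
      have e3 : (x ^ 2 + 2) ^ m * (x * ((x + 1) * (x + 1))) ≤ x ^ (3 * m + 5) := by
        calc (x ^ 2 + 2) ^ m * (x * ((x + 1) * (x + 1))) ≤ (x ^ 3) ^ m * (x * (x ^ 2 * x ^ 2)) := by gcongr
          _ = x ^ (3 * m + 5) := by rw [pow_add, pow_mul]; ring
      exact_mod_cast e3
  · intro x l _ p hp
    unfold primes at hp
    rw [mem_filter, mem_Ioc] at hp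
    exact ⟨hp.2.1.one_lt.le, by omega⟩
  · intro x l _ p hp p' hp' hne
    unfold primes at hp hp'
    rw [mem_filter] at hp hp'
    exact (Nat.coprime_primes hp.2.1 hp'.2.1).2 hne
  · intro x t _ p _ n
    exact allKoblitz_mod f g t.1 p n
  · intro S hS
    rw [mem_filter] at hS
    obtain ⟨_, hS2⟩ := hS
    unfold Good at hS2
    push Not at hS2
    obtain ⟨x, hyx, hxr, t, z, q, a, hlt⟩ := hS2
    have hx0 : (0 : ℝ) < x := by exact_mod_cast (by omega : 0 < x)
    obtain ⟨n, hn⟩ : ∃ n : Fin d → ℕ, n = fun l => change b (K l) (N l) (φ l) (S l) := ⟨_, rfl⟩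
    have hcount : (koblitz f g n t z x q a : ℝ) = (((primes z x q a).filter (fun p => AllKoblitz f g t p n)).card : ℝ) := rfl
    have hexp : expected f g t z x q a = ∑ p ∈ primes z x q a, Pool.Agent.TH894.NE.Pr d p (fun n => AllKoblitz f g t p n) := by
      unfold expected Pool.Agent.TH894.NE.Pr Pool.Agent.TH894.NE.box
      rfl
    rw [← hn] at hlt
    -- the parameters are bounded
    have hcard : ¬ (primes z x q a).card ≤ 1 := fun hcd =>
      absurd hlt (not_lt.2 (good_of_card f g δ hδ x (by omega) n t z q a hcd))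
    have hz : z < x := by
      by_contra hcon
      apply hcard
      unfold primes
      rw [Ioc_eq_empty (by omega), filter_empty, card_empty]
      omega
    have hq : q < x + 1 := by
      by_contra hcon
      apply hcard
      rw [card_le_one]
      intro p hp p' hp'
      unfold primes at hp hp'
      rw [mem_filter, mem_Ioc] at hp hp'
      have h3 := hp.2.2
      have h4 := hp'.2.2
      rw [Nat.mod_eq_of_lt (by omega)] at h3 h4
      omega
    have ha : a < x + 1 := by
      by_contra hcon
      apply hcard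
      rw [card_le_one]
      intro p hp p' hp'
      unfold primes at hp hp'
      rw [mem_filter, mem_Ioc] at hp hp'
      have h3 := hp.2.2
      have h4 := Nat.mod_le p q
      omega
    have ht : ∀ i, t i < x ^ 2 + 2 := by
      by_contra hcon
      push Not at hcon
      obtain ⟨i, hi⟩ := hcon
      have hno : ∀ p ∈ primes z x q a, ∀ n, ¬ AllKoblitz f g t p n := by
        intro p hp n hall
        unfold primes at hp
        rw [mem_filter, mem_Ioc] at hp
        refine not_isKoblitz ?_ (hall i)
        have : p * p ≤ x * x := Nat.mul_le_mul hp.1.2 hp.1.2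
        have : x ^ 2 = x * x := sq x
        omega
      have h9 : koblitz f g n t z x q a = 0 := by
        unfold koblitz
        rw [card_eq_zero, filter_eq_empty_iff]
        intro p hp
        exact hno p hp n
      have h10 : expected f g t z x q a = 0 := by
        unfold expected
        apply sum_eq_zero
        intro p hp
        have : (Fintype.piFinset (fun _ : Fin d => range p)).filter (fun n => AllKoblitz f g t p n) = ∅ := by
          rw [filter_eq_empty_iff]
          intro n _
          exact hno p hp n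
        rw [this, card_empty, Nat.cast_zero, zero_div]
      rw [h9, h10] at hlt
      simp at hlt
      have : 0 ≤ (x : ℝ) ^ δ := by positivity
      linarith
    refine ⟨x, hyx, fun l => (Real.log_le_iff_le_exp hx0).2 (hxr l), (t, z, q, a), ?_, ?_⟩
    · show (t, z, q, a) ∈ (if x < 2 then ∅ else Fintype.piFinset (fun _ : Fin m => range (x ^ 2 + 2)) ×ˢ
        (range x ×ˢ (range (x + 1) ×ˢ range (x + 1))) : Finset ((Fin m → ℕ) × ℕ × ℕ × ℕ))
      rw [if_neg (by omega)]
      simp only [mem_product, mem_range, Fintype.mem_piFinset]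
      exact ⟨ht, hz, hq, ha⟩
    · rw [hcount, hexp, hn] at hlt
      exact hlt

end Pool.Agent.Results.MP_b89fd0_nt.PolynomialFamilies
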