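import Pool.Agent.R418.PT.A
import Pool.Agent.R429.TL.Pts

set_option autoImplicit false

/-!
# Joint Koblitz numbers of several elliptic curves twisted by polynomial values

Let `E_i : y² = x³ + A_i x + B_i`, `i < m`, be elliptic curves and `f_1, …, f_m` polynomials in `ℤ[t]` of degree between `1` and
`d`, with product `F`. Let `E_{i,j}` be the quadratic twist of `E_i` by `f_i(j)`, `j < N`. For almost all `j`, up to a proportion of at
most `X ^ (-κ)` (any `κ`), the following holds for ALL `x ≥ X` up to a fixed power of `N`, ALL `t_1, …, t_m` and all residue classes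
`c` modulo `q ≤ x`: the number of the primes `p ≤ x`, `p ≡ c` modulo `q`, at which all the `E_{i,j}` have good reduction and
`#E_{i,j}(F_p) / t_i` is a prime for ALL `i`, is `2 ^ (-m)` times the number `M` of the pairs of such a prime `p` (of good reduction of
all the `E_i`) and a choice, for each `i`, of `E_i` or of its nontrivial quadratic twist modulo `p`, for which all the chosen curves
have `t_i` times a prime number of points, with an error of at most `√M x ^ δ` plus the number of the `p ≤ x` which divide the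
leading coefficient of `F` or the resultant of `F` and `F'`.
-/

namespace Pool.Agent.Results.MP_b89fd0_nt.PolynomialTwists

open Finset Polynomial

open Classical in
/-- The number of the points over `F_p`, with the point at infinity, of `y² = x³ + A x + B`. -/
noncomputable def points (A B : ℤ) (p : ℕ) : ℕ :=
  ((range p ×ˢ range p).filter (fun xy => (p : ℤ) ∣ (xy.2 : ℤ) ^ 2 - ((xy.1 : ℤ) ^ 3 + A * xy.1 + B))).card + 1

/-- `p` is a prime which does not divide `2 (4 A³ + 27 B²)`. -/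
def GoodPrime (A B : ℤ) (p : ℕ) : Prop := p.Prime ∧ ¬ ((p : ℤ) ∣ 2 * (4 * A ^ 3 + 27 * B ^ 2))

/-- `n` is `t` times a prime number. -/
def TimesPrime (t : ℕ) (n : ℤ) : Prop := ∃ ℓ : ℕ, ℓ.Prime ∧ n = t * ℓ

open Classical in
/-- the number of the primes `p ≤ x` with `p % q = c` of good reduction of all the twists `y² = x³ + A_i D_i² x + B_i D_i³`
for which the number of the points of the twist number `i` is `t_i` times a prime number, for all `i` -/
noncomputable def count {m : ℕ} (A B D : Fin m → ℤ) (t : Fin m → ℕ) (q c x : ℕ) : ℕ :=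
  ((range (x + 1)).filter (fun p => p.Prime ∧ p % q = c ∧ ∀ i, GoodPrime (A i * D i ^ 2) (B i * D i ^ 3) p ∧
    TimesPrime (t i) (points (A i * D i ^ 2) (B i * D i ^ 3) p))).card

open Classical in
/-- the number of the pairs of a prime `p ≤ x` with `p % q = c`, of good reduction of all the `y² = x³ + A_i x + B_i`, and of a set
`S` of indices, such that for `i ∈ S` the number of the points of the curve number `i`, and for `i ∉ S` the number of the points of
its nontrivial quadratic twist modulo `p`, that is `2 p + 2` minus the former number, is `t_i` times a prime number -/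
noncomputable def base {m : ℕ} (A B : Fin m → ℤ) (t : Fin m → ℕ) (q c x : ℕ) : ℕ :=
  ((range (x + 1) ×ˢ (univ : Finset (Finset (Fin m)))).filter (fun z => z.1.Prime ∧ z.1 % q = c ∧
    ∀ i, GoodPrime (A i) (B i) z.1 ∧
      TimesPrime (t i) (if i ∈ z.2 then (points (A i) (B i) z.1 : ℤ) else 2 * z.1 + 2 - points (A i) (B i) z.1))).card

open Classical in
/-- the number of the primes `p ≤ x` dividing the leading coefficient of `F` or the resultant of `F` and its derivative -/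
noncomputable def ram (F : ℤ[X]) (x : ℕ) : ℕ :=
  ((range (x + 1)).filter (fun p : ℕ => p.Prime ∧
    ((p : ℤ) ∣ F.leadingCoeff ∨ (p : ℤ) ∣ resultant F F.derivative))).card

/-- the condition on the twist -/
def Tw {m : ℕ} (A B D : Fin m → ℤ) (t : Fin m → ℕ) (q c p : ℕ) : Prop :=
  p.Prime ∧ p % q = c ∧ ∀ i, GoodPrime (A i * D i ^ 2) (B i * D i ^ 3) p ∧
    TimesPrime (t i) (points (A i * D i ^ 2) (B i * D i ^ 3) p)

/-- the condition on the choice -/
def Ch {m : ℕ} (A B : Fin m → ℤ) (t : Fin m → ℕ) (q c p : ℕ) (S : Finset (Fin m)) : Prop :=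
  p.Prime ∧ p % q = c ∧ ∀ i, GoodPrime (A i) (B i) p ∧
      TimesPrime (t i) (if i ∈ S then (points (A i) (B i) p : ℤ) else 2 * p + 2 - points (A i) (B i) p)

theorem points_eq_TL (A B : ℤ) (p : ℕ) : points A B p = Pool.Agent.R429.TL.points A B p := rfl

theorem good_congr (p : ℕ) {a a' b b' : ℤ} (e1 : ((a' : ℤ) : ZMod p) = ((a : ℤ) : ZMod p))
    (e2 : ((b' : ℤ) : ZMod p) = ((b : ℤ) : ZMod p)) : GoodPrime a' b' p ↔ GoodPrime a b p := by
  have h1 : ((p : ℤ) ∣ 2 * (4 * a' ^ 3 + 27 * b' ^ 2)) ↔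
      ((p : ℤ) ∣ 2 * (4 * a ^ 3 + 27 * b ^ 2)) := by
    rw [← ZMod.intCast_zmod_eq_zero_iff_dvd, ← ZMod.intCast_zmod_eq_zero_iff_dvd]
    push_cast
    rw [e1, e2]
  unfold GoodPrime
  rw [h1]

theorem points_congr (p : ℕ) {a a' b b' : ℤ} (e1 : ((a' : ℤ) : ZMod p) = ((a : ℤ) : ZMod p))
    (e2 : ((b' : ℤ) : ZMod p) = ((b : ℤ) : ZMod p)) : points a' b' p = points a b p := by
  classical
  unfold points
  congr 2
  refine filter_congr fun xy _ => ?_
  rw [← ZMod.intCast_zmod_eq_zero_iff_dvd, ← ZMod.intCast_zmod_eq_zero_iff_dvd]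
  push_cast
  rw [e1, e2]

theorem points_le (A B : ℤ) (p : ℕ) : points A B p ≤ p ^ 2 + 1 := by
  classical
  unfold points
  have := card_filter_le (range p ×ˢ range p) (fun xy : ℕ × ℕ =>
    (p : ℤ) ∣ (xy.2 : ℤ) ^ 2 - ((xy.1 : ℤ) ^ 3 + A * xy.1 + B))
  rw [card_product, card_range, ← sq] at this
  omega

theorem times_le {t : ℕ} {n : ℤ} (h : TimesPrime t n) {x : ℕ} (hn : n ≤ (x : ℤ) ^ 2 + 1) : t < x ^ 2 + 2 := by
  obtain ⟨ℓ, hℓ, he⟩ := h
  have h1 : (t : ℤ) ≤ t * ℓ := by
    have : (1 : ℤ) ≤ ℓ := by exact_mod_cast hℓ.one_lt.le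
    nlinarith [(Nat.cast_nonneg t : (0 : ℤ) ≤ t)]
  have h2 : (t : ℤ) < (x : ℤ) ^ 2 + 2 := by linarith
  exact_mod_cast h2

theorem two_points_le (A B : ℤ) {p x : ℕ} (hp : 2 ≤ p) (hpx : p ≤ x) :
    (points A B p : ℤ) ≤ (x : ℤ) ^ 2 + 1 ∧ 2 * (p : ℤ) + 2 - points A B p ≤ (x : ℤ) ^ 2 + 1 := by
  have h1 := points_le A B p
  have h2 : 1 ≤ points A B p := by unfold points; omega
  have h3 : (p : ℤ) ^ 2 ≤ (x : ℤ) ^ 2 := by
    have : p ^ 2 ≤ x ^ 2 := Nat.pow_le_pow_left hpx 2
    exact_mod_cast this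
  have h4 : (points A B p : ℤ) ≤ (p : ℤ) ^ 2 + 1 := by exact_mod_cast h1
  have h5 : (1 : ℤ) ≤ points A B p := by exact_mod_cast h2
  have h6 : (2 : ℤ) ≤ p := by exact_mod_cast hp
  constructor
  · linarith
  · nlinarith

open Classical in
/-- the signs -/
theorem tw_iff {m : ℕ} (A B D : Fin m → ℤ) (t : Fin m → ℕ) (q c p : ℕ) (hm : 1 ≤ m) :
    Tw A B D t q c p ↔ ∃ S : Finset (Fin m), Ch A B t q c p S ∧ ∀ i, jacobiSym (D i) p = if i ∈ S then 1 else -1 := by
  have hdisc : ∀ i, 2 * (4 * (A i * D i ^ 2) ^ 3 + 27 * (B i * D i ^ 3) ^ 2) =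
      2 * (4 * A i ^ 3 + 27 * B i ^ 2) * D i ^ 6 := fun i => by ring
  constructor
  · rintro ⟨hp, hpc, hall⟩
    have hpD : ∀ i, ¬ (p : ℤ) ∣ D i := by
      intro i h
      apply (hall i).1.2
      rw [hdisc]
      exact Dvd.dvd.mul_left (dvd_pow h (by norm_num)) _
    have hpd : ∀ i, ¬ (p : ℤ) ∣ 2 * (4 * A i ^ 3 + 27 * B i ^ 2) := by
      intro i h
      apply (hall i).1.2
      rw [hdisc]
      exact Dvd.dvd.mul_right h _
    have hp2 : p ≠ 2 := by
      rintro rfl
      exact hpd ⟨0, hm⟩ (Dvd.intro _ rfl)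
    refine ⟨univ.filter (fun i => jacobiSym (D i) p = 1), ⟨hp, hpc, fun i => ⟨⟨hp, hpd i⟩, ?_⟩⟩, fun i => ?_⟩
    · obtain ⟨h1, h2⟩ := Pool.Agent.R429.TL.twist_points (A i) (B i) (D i) hp hp2
      have h3 := (hall i).2
      rw [points_eq_TL] at h3 ⊢
      simp only [mem_filter, mem_univ, true_and]
      rcases Pool.Agent.R429.TL.jac_of_not_dvd hp (hpD i) with hj | hj
      · rw [if_pos hj, ← h1 hj]
        exact h3
      · rw [if_neg (by rw [hj]; norm_num), ← h2 hj]
        exact h3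
    · simp only [mem_filter, mem_univ, true_and]
      rcases Pool.Agent.R429.TL.jac_of_not_dvd hp (hpD i) with hj | hj
      · rw [if_pos hj, hj]
      · rw [if_neg (by rw [hj]; norm_num), hj]
  · rintro ⟨S, ⟨hp, hpc, hall⟩, hS⟩
    have hp2 : p ≠ 2 := by
      rintro rfl
      exact (hall ⟨0, hm⟩).1.2 (Dvd.intro _ rfl)
    refine ⟨hp, hpc, fun i => ?_⟩
    have hj0 : jacobiSym (D i) p ≠ 0 := by
      rw [hS i]
      split_ifs <;> norm_num
    have hpD := Pool.Agent.W406.TW.not_dvd_of_jac hp hj0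
    refine ⟨⟨hp, ?_⟩, ?_⟩
    · rw [Pool.Agent.W406.TW.dvd_disc (A i) (B i) (D i) hp hpD]
      exact (hall i).1.2
    · obtain ⟨h1, h2⟩ := Pool.Agent.R429.TL.twist_points (A i) (B i) (D i) hp hp2
      have h3 := (hall i).2
      have h4 := hS i
      rw [points_eq_TL] at h3 ⊢
      by_cases hi : i ∈ S
      · rw [if_pos hi] at h3 h4
        rw [h1 h4]
        exact h3
      · rw [if_neg hi] at h3 h4
        rw [h2 h4]
        exact h3

open Classical in
theorem mean_twist {m : ℕ} (hm : 1 ≤ m) (A B : Fin m → ℤ) (f : Fin m → ℤ[X])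
    (hd : ∀ i, 1 ≤ (f i).natDegree) (t : Fin m → ℕ) (q c p : ℕ) :
    |Pool.Agent.R418.GE.mean p (fun j : ℕ => if Tw A B (fun i => (f i).eval (j : ℤ)) t q c p then (1 : ℝ) else 0) -
        ∑ S : Finset (Fin m), (if Ch A B t q c p S then (1 : ℝ) / 2 ^ m else 0)| ≤
      (∑ S : Finset (Fin m), if Ch A B t q c p S then 2 * ((∏ i, f i).natDegree : ℝ) * (1 / √p) else 0) +
      (if p.Prime ∧ ((p : ℤ) ∣ (∏ i, f i).leadingCoeff ∨
        (p : ℤ) ∣ resultant (∏ i, f i) (derivative (∏ i, f i))) then 1 else 0) := by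
  classical
  obtain ⟨g, hg⟩ : ∃ g : ℕ → ℝ, g = fun j : ℕ => if Tw A B (fun i => (f i).eval (j : ℤ)) t q c p then (1 : ℝ) else 0 := ⟨_, rfl⟩
  have hg01 : ∀ j, 0 ≤ g j ∧ g j ≤ 1 := by
    intro j
    rw [hg]
    simp only
    split_ifs <;> norm_num
  rw [← hg]
  have hgS : ∀ j, g j = ∑ S : Finset (Fin m), (if Ch A B t q c p S then
      (if ∀ i, jacobiSym ((f i).eval (j : ℤ)) p = if i ∈ S then 1 else -1 then (1 : ℝ) else 0) else 0) := by
    intro j
    rw [hg]
    simp only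
    by_cases hT : Tw A B (fun i => (f i).eval (j : ℤ)) t q c p
    · rw [if_pos hT]
      obtain ⟨S, hS1, hS2⟩ := (tw_iff A B (fun i => (f i).eval (j : ℤ)) t q c p hm).1 hT
      rw [sum_eq_single S]
      · rw [if_pos hS1, if_pos hS2]
      · intro S' _ hne
        split_ifs with h1 h2
        · exfalso
          apply hne
          ext i
          have e1 := hS2 i
          have e2 := h2 i
          rw [e1] at e2
          by_cases hi : i ∈ S <;> by_cases hi' : i ∈ S' <;> simp [hi, hi'] at e2 ⊢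
        · rfl
        · rfl
      · intro h
        exact absurd (mem_univ _) h
    · rw [if_neg hT]
      symm
      apply sum_eq_zero
      intro S _
      split_ifs with h1 h2
      · exfalso
        exact hT ((tw_iff A B (fun i => (f i).eval (j : ℤ)) t q c p hm).2 ⟨S, h1, h2⟩)
      · rfl
      · rfl
  have hmean : Pool.Agent.R418.GE.mean p g = ∑ S : Finset (Fin m), (if Ch A B t q c p S then
      (∑ n ∈ range p, (if ∀ i, jacobiSym ((f i).eval (n : ℤ)) p = if i ∈ S then 1 else -1 then (1 : ℝ) else 0)) / p else 0) := by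
    rw [Pool.Agent.R418.GE.mean, sum_congr rfl fun n _ => hgS n, sum_comm, sum_div]
    refine sum_congr rfl fun S _ => ?_
    split_ifs
    · rfl
    · simp
  by_cases hno : ∀ S, ¬ Ch A B t q c p S
  · rw [hmean]
    rw [sum_congr rfl (fun S _ => if_neg (hno S)), sum_congr rfl (fun S _ => if_neg (hno S)),
      sum_congr rfl (fun S _ => if_neg (hno S))]
    simp only [sum_const_zero, sub_zero, abs_zero, zero_add]
    split_ifs <;> norm_num
  · push Not at hno
    obtain ⟨S₀, hS₀⟩ := hno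
    have hp := hS₀.1
    have hp0 : (0 : ℝ) < p := by exact_mod_cast hp.pos
    have hp2 : p ≠ 2 := by
      rintro rfl
      exact (hS₀.2.2 ⟨0, hm⟩).1.2 (Dvd.intro _ rfl)
    by_cases hb : (p : ℤ) ∣ Pool.Agent.R418.UP.bad (∏ i, f i)
    · have hb' : (p : ℤ) ∣ (∏ i, f i).leadingCoeff ∨
        (p : ℤ) ∣ resultant (∏ i, f i) (derivative (∏ i, f i)) := by
        unfold Pool.Agent.R418.UP.bad at hb
        exact (Nat.prime_iff_prime_int.1 hp).dvd_or_dvd hb
      rw [if_pos ⟨hp, hb'⟩]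
      have h1 : 0 ≤ Pool.Agent.R418.GE.mean p g ∧ Pool.Agent.R418.GE.mean p g ≤ 1 := by
        have h1 : 0 ≤ ∑ n ∈ range p, g n := sum_nonneg fun n _ => (hg01 n).1
        have h2 : ∑ n ∈ range p, g n ≤ p := by
          refine (sum_le_sum (g := fun _ => (1 : ℝ)) fun n _ => (hg01 n).2).trans ?_
          simp
        exact ⟨div_nonneg h1 hp0.le, div_le_one_of_le₀ h2 hp0.le⟩
      have h2 : 0 ≤ ∑ S : Finset (Fin m), (if Ch A B t q c p S then (1 : ℝ) / 2 ^ m else 0) :=
        sum_nonneg fun S _ => by split_ifs <;> positivity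
      have h2' : ∑ S : Finset (Fin m), (if Ch A B t q c p S then (1 : ℝ) / 2 ^ m else 0) ≤ 1 := by
        refine (sum_le_sum (g := fun _ => (1 : ℝ) / 2 ^ m) fun S _ => ?_).trans ?_
        · split_ifs
          · exact le_rfl
          · positivity
        · rw [sum_const, card_univ, Fintype.card_finset, Fintype.card_fin, nsmul_eq_mul]
          push_cast
          rw [mul_one_div_cancel (by positivity)]
      have h3 : 0 ≤ ∑ S : Finset (Fin m), (if Ch A B t q c p S then 2 * ((∏ i, f i).natDegree : ℝ) * (1 / √p) else 0) :=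
        sum_nonneg fun S _ => by split_ifs <;> positivity
      rw [abs_le]
      constructor <;> linarith [h1.1, h1.2]
    · have h4 : 0 ≤ (if p.Prime ∧ ((p : ℤ) ∣ (∏ i, f i).leadingCoeff ∨
        (p : ℤ) ∣ resultant (∏ i, f i) (derivative (∏ i, f i))) then (1 : ℝ) else 0) := by
        split_ifs <;> norm_num
      refine le_trans ?_ (le_add_of_nonneg_right h4)
      rw [hmean, ← sum_sub_distrib]
      refine (abs_sum_le_sum_abs _ _).trans (sum_le_sum fun S _ => ?_)
      by_cases hS : Ch A B t q c p S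
      · rw [if_pos hS, if_pos hS, if_pos hS]
        obtain ⟨s, hs⟩ : ∃ s : Fin m → ℤ, s = fun i => if i ∈ S then 1 else -1 := ⟨_, rfl⟩
        have hs1 : ∀ i, s i = 1 ∨ s i = -1 := by
          intro i
          rw [hs]
          simp only
          split_ifs
          · left; rfl
          · right; rfl
        have h1 := Pool.Agent.R418.PT.mean_signs hm f hd p hp hp2 hb s hs1
        have h5 : (∑ n ∈ range p, (if ∀ i, jacobiSym ((f i).eval (n : ℤ)) p = if i ∈ S then 1 else -1 then (1 : ℝ) else 0)) / p -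
            1 / 2 ^ m = ((∑ n ∈ range p, (if ∀ i, jacobiSym ((f i).eval (n : ℤ)) p = s i then (1 : ℝ) else 0)) -
              (p : ℝ) / 2 ^ m) / p := by
          rw [hs]
          field_simp
        rw [h5, abs_div, abs_of_pos hp0, div_le_iff₀ hp0]
        refine h1.trans (le_of_eq ?_)
        have h6 : √(p : ℝ) * √(p : ℝ) = p := Real.mul_self_sqrt hp0.le
        have h7 : √(p : ℝ) ≠ 0 := (Real.sqrt_pos.mpr hp0).ne'
        calc 2 * ((∏ i, f i).natDegree : ℝ) * √p = 2 * ((∏ i, f i).natDegree : ℝ) * (1 / √p) *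
              (√(p : ℝ) * √(p : ℝ)) := by field_simp
          _ = _ := by rw [h6]
      · rw [if_neg hS, if_neg hS, if_neg hS]
        simp

/-- For all `m`, `d`, `κ` and `δ > 0` there are `W` and `X₀` such that for all elliptic curves `y² = x³ + A_i x + B_i` and all
polynomials `f_i`, `i < m`, of degree between `1` and `d`, and for all `X ≥ X₀` and all `N`, the number of the `j < N` for which for
some `x ≥ X` with `x ^ W ≤ N`, some `t_1, …, t_m`, some `q ≤ x` and some `c < q` the number of the primes `p ≤ x`, `p ≡ c` modulo `q`,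
at which all the twists of the `E_i` by the `f_i(j)` have good reduction and `t_i` times a prime number of points, differs from
`2 ^ (-m)` times the number `base` by more than `(max 1 base) ^ (1 / 2) x ^ δ + ram`, is at most `X ^ (-κ) N`. -/
theorem result (m d κ : ℕ) (hm : 1 ≤ m) (δ : ℝ) (hδ : 0 < δ) : ∃ W X₀ : ℕ, 1 ≤ W ∧
    ∀ (A B : Fin m → ℤ) (f : Fin m → ℤ[X]), (∀ i, 1 ≤ (f i).natDegree ∧ (f i).natDegree ≤ d) →
      ∀ X N : ℕ, X₀ ≤ X →
        (({j : ℕ | j < N ∧ ∃ x : ℕ, X ≤ x ∧ x ^ W ≤ N ∧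
          ∃ (t : Fin m → ℕ) (q c : ℕ), 1 ≤ q ∧ q ≤ x ∧ c < q ∧
            √(max 1 (base A B t q c x : ℝ)) * (x : ℝ) ^ δ + ram (∏ i, f i) x <
              |(count A B (fun i => (f i).eval (j : ℤ)) t q c x : ℝ) -
                (base A B t q c x : ℝ) / 2 ^ m|}).ncard : ℝ) * (X : ℝ) ^ κ ≤ N := by
  classical
  obtain ⟨W, X₀, hW, hX₀, hgen⟩ := Pool.Agent.R418.GE.general (δ / 2) κ (3 * m + 2) (by positivity)
  obtain ⟨X₁, hX₁⟩ : ∃ X₁ : ℕ, ∀ x : ℕ, X₁ ≤ x → 1 + 4 * (m * d : ℝ) * 2 ^ m ≤ (x : ℝ) ^ (δ / 2) := by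
    have h1 : Filter.Tendsto (fun x : ℕ => (x : ℝ) ^ (δ / 2)) Filter.atTop Filter.atTop :=
      (tendsto_rpow_atTop (show 0 < δ / 2 by positivity)).comp tendsto_natCast_atTop_atTop
    have h2 := h1.eventually (Filter.eventually_ge_atTop (1 + 4 * (m * d : ℝ) * 2 ^ m))
    obtain ⟨X₁, h3⟩ := Filter.eventually_atTop.mp h2
    exact ⟨X₁, h3⟩
  refine ⟨W, max X₀ (max X₁ 5), hW, ?_⟩
  intro A B f hf X N hX
  have hXa : X₀ ≤ X := (le_max_left _ _).trans hX
  have hXb : X₁ ≤ X := (le_max_left _ _).trans ((le_max_right _ _).trans hX)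
  have hXc : 5 ≤ X := (le_max_right _ _).trans ((le_max_right _ _).trans hX)
  obtain ⟨R, hR⟩ : ∃ R : ℕ → Finset ((Fin m → ℕ) × ℕ × ℕ), R = fun x : ℕ => if x < 5 then ∅ else
    (Fintype.piFinset fun _ : Fin m => range (x ^ 2 + 2)) ×ˢ (Icc 1 x ×ˢ range x) := ⟨_, rfl⟩
  obtain ⟨g, hg⟩ : ∃ g : ℕ → ((Fin m → ℕ) × ℕ × ℕ) → ℕ → ℕ → ℝ, g =
    fun (_ : ℕ) (s : (Fin m → ℕ) × ℕ × ℕ) (p j : ℕ) =>
      if Tw A B (fun i => (f i).eval (j : ℤ)) s.1 s.2.1 s.2.2 p then (1 : ℝ) else 0 := ⟨_, rfl⟩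
  have hRc : ∀ x, (R x).card ≤ x ^ (3 * m + 2) := by
    intro x
    rw [hR]
    simp only
    split_ifs with h
    · simp
    · push Not at h
      rw [card_product, card_product, Fintype.card_piFinset_const, card_range, Nat.card_Icc, card_range]
      have h2 : x ^ 2 + 2 ≤ x ^ 3 := by nlinarith [Nat.pow_le_pow_left h 2]
      calc (x ^ 2 + 2) ^ m * ((x + 1 - 1) * x) ≤ (x ^ 3) ^ m * (x * x) := by
            apply Nat.mul_le_mul (Nat.pow_le_pow_left h2 m)
            rw [Nat.add_sub_cancel]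
        _ = x ^ (3 * m + 2) := by rw [← pow_mul]; ring
  have hsys : ∀ x s, Pool.Agent.R418.GE.Sys (g x s) := by
    intro x s
    rw [hg]
    refine ⟨fun p n => ?_, fun p hp n => ?_⟩
    · simp only
      split_ifs <;> norm_num
    · simp only
      have key : Tw A B (fun i => (f i).eval ((n + p : ℕ) : ℤ)) s.1 s.2.1 s.2.2 p ↔
          Tw A B (fun i => (f i).eval (n : ℤ)) s.1 s.2.1 s.2.2 p := by
        refine and_congr_right fun _ => and_congr_right fun _ => forall_congr' fun i => ?_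
        have h1 : (((f i).eval ((n + p : ℕ) : ℤ) : ℤ) : ZMod p) =
            (((f i).eval (n : ℤ) : ℤ) : ZMod p) := by
          have h1 := Polynomial.sub_dvd_eval_sub ((n + p : ℕ) : ℤ) (n : ℤ) (f i)
          have h2 : ((n + p : ℕ) : ℤ) - (n : ℤ) = p := by push_cast; ring
          rw [h2, ← ZMod.intCast_zmod_eq_zero_iff_dvd] at h1
          push_cast at h1 ⊢
          exact sub_eq_zero.mp h1
        have e1 : ((A i * ((f i).eval ((n + p : ℕ) : ℤ)) ^ 2 : ℤ) : ZMod p) = ((A i * ((f i).eval (n : ℤ)) ^ 2 : ℤ) : ZMod p) := by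
          push_cast at h1 ⊢
          rw [h1]
        have e2 : ((B i * ((f i).eval ((n + p : ℕ) : ℤ)) ^ 3 : ℤ) : ZMod p) = ((B i * ((f i).eval (n : ℤ)) ^ 3 : ℤ) : ZMod p) := by
          push_cast at h1 ⊢
          rw [h1]
        show GoodPrime (A i * ((f i).eval ((n + p : ℕ) : ℤ)) ^ 2) (B i * ((f i).eval ((n + p : ℕ) : ℤ)) ^ 3) p ∧
          TimesPrime (s.1 i) (points (A i * ((f i).eval ((n + p : ℕ) : ℤ)) ^ 2) (B i * ((f i).eval ((n + p : ℕ) : ℤ)) ^ 3) p) ↔
          GoodPrime (A i * ((f i).eval (n : ℤ)) ^ 2) (B i * ((f i).eval (n : ℤ)) ^ 3) p ∧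
          TimesPrime (s.1 i) (points (A i * ((f i).eval (n : ℤ)) ^ 2) (B i * ((f i).eval (n : ℤ)) ^ 3) p)
        rw [good_congr p e1 e2, points_congr p e1 e2]
      exact if_congr key rfl rfl
  have hcnt : ∀ x s j, Pool.Agent.R418.GE.cnt (g x s) x j =
      (count A B (fun i => (f i).eval (j : ℤ)) s.1 s.2.1 s.2.2 x : ℝ) := by
    intro x s j
    rw [Pool.Agent.R418.GE.cnt, hg, count, Pool.Agent.R418.GE.pr]
    simp only
    rw [← sum_filter, sum_const, nsmul_eq_mul, mul_one, filter_filter]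
    congr 2
    refine filter_congr fun p _ => ?_
    unfold Tw
    exact ⟨fun h => h.2, fun h => ⟨h.1, h⟩⟩
  have hdeg : ((∏ i, f i).natDegree : ℝ) ≤ m * d := by
    have h1 : (∏ i, f i).natDegree ≤ m * d := by
      refine (natDegree_prod_le _ _).trans ((sum_le_sum fun i _ => (hf i).2).trans ?_)
      simp
    exact_mod_cast h1
  have hbase : ∀ (t : Fin m → ℕ) (q c x : ℕ), (base A B t q c x : ℝ) =
      ∑ S : Finset (Fin m), ∑ p ∈ Pool.Agent.R418.GE.pr x, (if Ch A B t q c p S then (1 : ℝ) else 0) := by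
    intro t q c x
    have h0 : base A B t q c x = ((Pool.Agent.R418.GE.pr x ×ˢ (univ : Finset (Finset (Fin m)))).filter
        (fun z => Ch A B t q c z.1 z.2)).card := by
      unfold base
      refine congrArg card (Finset.ext fun z => ?_)
      rw [mem_filter, mem_filter, mem_product, mem_product, Pool.Agent.R418.GE.mem_pr, mem_range]
      constructor
      · rintro ⟨⟨h1, h2⟩, h3⟩
        exact ⟨⟨⟨h3.1, by omega⟩, h2⟩, h3⟩
      · rintro ⟨⟨⟨h1, h1'⟩, h2⟩, h3⟩
        exact ⟨⟨by omega, h2⟩, h3⟩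
    rw [h0, card_filter, sum_product, sum_comm]
    push_cast
    rfl
  have hram : ∀ x : ℕ, (ram (∏ i, f i) x : ℝ) = ∑ p ∈ Pool.Agent.R418.GE.pr x,
      (if p.Prime ∧ ((p : ℤ) ∣ (∏ i, f i).leadingCoeff ∨
        (p : ℤ) ∣ resultant (∏ i, f i) (derivative (∏ i, f i))) then (1 : ℝ) else 0) := by
    intro x
    rw [ram, Pool.Agent.R418.GE.pr, ← sum_filter, sum_const, nsmul_eq_mul, mul_one, filter_filter]
    congr 2
    refine filter_congr fun p _ => ?_
    exact ⟨fun h => ⟨h.1, h⟩, fun h => h.2⟩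
  have hmdl : ∀ (x : ℕ) (s : (Fin m → ℕ) × ℕ × ℕ),
      |Pool.Agent.R418.GE.mdl (g x s) x - (base A B s.1 s.2.1 s.2.2 x : ℝ) / 2 ^ m| ≤
        4 * (m * d) * 2 ^ m * √(base A B s.1 s.2.1 s.2.2 x : ℝ) + ram (∏ i, f i) x := by
    intro x s
    have e1 : (base A B s.1 s.2.1 s.2.2 x : ℝ) / 2 ^ m = ∑ p ∈ Pool.Agent.R418.GE.pr x,
        ∑ S : Finset (Fin m), (if Ch A B s.1 s.2.1 s.2.2 p S then (1 : ℝ) / 2 ^ m else 0) := by
      rw [hbase, sum_comm, sum_div]
      refine sum_congr rfl fun p _ => ?_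
      rw [sum_div]
      refine sum_congr rfl fun S _ => ?_
      rw [ite_div, zero_div]
    rw [Pool.Agent.R418.GE.mdl, e1, ← sum_sub_distrib]
    refine (abs_sum_le_sum_abs _ _).trans ?_
    refine (sum_le_sum fun p _ => ?_).trans (b := ∑ p ∈ Pool.Agent.R418.GE.pr x,
      ((∑ S : Finset (Fin m), if Ch A B s.1 s.2.1 s.2.2 p S then
          2 * ((∏ i, f i).natDegree : ℝ) * (1 / √p) else 0) +
      (if p.Prime ∧ ((p : ℤ) ∣ (∏ i, f i).leadingCoeff ∨
        (p : ℤ) ∣ resultant (∏ i, f i) (derivative (∏ i, f i))) then 1 else 0))) ?_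
    · rw [hg]
      exact mean_twist hm A B f (fun i => (hf i).1) s.1 s.2.1 s.2.2 p
    · rw [sum_add_distrib, ← hram, sum_comm]
      refine add_le_add ?_ le_rfl
      have hS : ∀ S : Finset (Fin m), ∑ p ∈ Pool.Agent.R418.GE.pr x, (if Ch A B s.1 s.2.1 s.2.2 p S then
          2 * ((∏ i, f i).natDegree : ℝ) * (1 / √p) else 0) ≤ 4 * (m * d) * √(base A B s.1 s.2.1 s.2.2 x : ℝ) := by
        intro S
        rw [← sum_filter, ← mul_sum]
        have h1 := Pool.Agent.R418.PT.sum_inv_sqrt_le ((Pool.Agent.R418.GE.pr x).filter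
          (fun p => Ch A B s.1 s.2.1 s.2.2 p S)) (by
            intro n hn
            rw [mem_filter] at hn
            exact hn.2.1.one_lt.le)
        have h2 : ((((Pool.Agent.R418.GE.pr x).filter (fun p => Ch A B s.1 s.2.1 s.2.2 p S)).card : ℕ) : ℝ) ≤
            base A B s.1 s.2.1 s.2.2 x := by
          rw [hbase]
          refine le_trans (le_of_eq ?_) (single_le_sum (f := fun S : Finset (Fin m) => ∑ p ∈ Pool.Agent.R418.GE.pr x,
            (if Ch A B s.1 s.2.1 s.2.2 p S then (1 : ℝ) else 0)) (fun S _ => sum_nonneg fun p _ => by split_ifs <;> norm_num)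
            (mem_univ S))
          rw [← sum_filter, sum_const, nsmul_eq_mul, mul_one]
        have h3 := Real.sqrt_le_sqrt h2
        calc _ ≤ 2 * ((∏ i, f i).natDegree : ℝ) * (2 * √(base A B s.1 s.2.1 s.2.2 x : ℝ)) := by
              apply mul_le_mul_of_nonneg_left (h1.trans _) (by positivity)
              linarith
          _ = 4 * ((∏ i, f i).natDegree : ℝ) * √(base A B s.1 s.2.1 s.2.2 x : ℝ) := by ring
          _ ≤ 4 * (m * d) * √(base A B s.1 s.2.1 s.2.2 x : ℝ) := by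
              apply mul_le_mul_of_nonneg_right _ (Real.sqrt_nonneg _)
              linarith
      refine (sum_le_sum fun S _ => hS S).trans (le_of_eq ?_)
      rw [sum_const, card_univ, Fintype.card_finset, Fintype.card_fin, nsmul_eq_mul]
      push_cast
      ring
  have hmdl_le : ∀ (x : ℕ) (s : (Fin m → ℕ) × ℕ × ℕ),
      Pool.Agent.R418.GE.mdl (g x s) x ≤ base A B s.1 s.2.1 s.2.2 x := by
    intro x s
    rw [Pool.Agent.R418.GE.mdl, hbase, sum_comm]
    refine sum_le_sum fun p _ => ?_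
    by_cases hno : ∀ S, ¬ Ch A B s.1 s.2.1 s.2.2 p S
    · rw [Pool.Agent.R418.GE.mean]
      have h0 : ∀ n, g x s p n = 0 := by
        intro n
        rw [hg]
        simp only
        rw [if_neg]
        intro hT
        obtain ⟨S, hS, _⟩ := (tw_iff A B _ s.1 s.2.1 s.2.2 p hm).1 hT
        exact hno S hS
      rw [sum_congr rfl fun n _ => h0 n]
      simp only [sum_const_zero, zero_div]
      exact sum_nonneg fun S _ => by split_ifs <;> norm_num
    · push Not at hno
      obtain ⟨S, hS⟩ := hno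
      refine (Pool.Agent.R418.GE.mean_mem (hsys x s) p).2.trans ?_
      refine le_trans (le_of_eq ?_) (single_le_sum (f := fun S : Finset (Fin m) =>
            (if Ch A B s.1 s.2.1 s.2.2 p S then (1 : ℝ) else 0)) (fun S _ => by split_ifs <;> norm_num)
            (mem_univ S))
      rw [if_pos hS]
  have hfin : ({j : ℕ | j < N ∧ ∃ x : ℕ, X ≤ x ∧ x ^ W ≤ N ∧
          ∃ (t : Fin m → ℕ) (q c : ℕ), 1 ≤ q ∧ q ≤ x ∧ c < q ∧
            √(max 1 (base A B t q c x : ℝ)) * (x : ℝ) ^ δ + ram (∏ i, f i) x <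
              |(count A B (fun i => (f i).eval (j : ℤ)) t q c x : ℝ) -
                (base A B t q c x : ℝ) / 2 ^ m|} : Set ℕ).Finite :=
    (Set.finite_Iio N).subset fun j hj => hj.1
  rw [Set.ncard_eq_toFinset_card _ hfin]
  refine hgen _ R g hRc hsys X N hXa _ fun j hj => ?_
  obtain ⟨hjN, x, hx1, hx2, t, q, c, hq1, hq2, hc, hbad⟩ :=
    (Set.Finite.mem_toFinset hfin).1 hj
  have hx5 : ¬ x < 5 := by omega
  have hxr : (1 : ℝ) ≤ x := by
    have : 1 ≤ x := by omega
    exact_mod_cast this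
  have hx0 : (0 : ℝ) < x := by linarith
  refine ⟨hjN, x, hx1, hx2, (t, q, c), ?_, ?_⟩
  · rw [hR]
    simp only
    rw [if_neg hx5, mem_product, mem_product, Fintype.mem_piFinset, mem_Icc, mem_range]
    refine ⟨?_, ⟨hq1, hq2⟩, lt_of_lt_of_le hc hq2⟩
    -- some prime is counted
    have hex : ∃ p : ℕ, p ≤ x ∧ ∃ S, Ch A B t q c p S := by
      by_contra hcon
      push Not at hcon
      have hb0 : (base A B t q c x : ℝ) = 0 := by
        rw [hbase]
        apply sum_eq_zero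
        intro S _
        apply sum_eq_zero
        intro p hp
        rw [if_neg]
        exact hcon p (Pool.Agent.R418.GE.mem_pr.1 hp).2 S
      have hc0 : count A B (fun i => (f i).eval (j : ℤ)) t q c x = 0 := by
        rw [count, card_eq_zero, filter_eq_empty_iff]
        intro p hp hT
        rw [mem_range] at hp
        obtain ⟨S, hS, _⟩ := (tw_iff A B (fun i => (f i).eval (j : ℤ)) t q c p hm).1 hT
        exact hcon p (by omega) S hS
      rw [hb0, hc0] at hbad
      have : 0 ≤ √(max 1 (0 : ℝ)) * (x : ℝ) ^ δ + ram (∏ i, f i) x := by positivity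
      norm_num at hbad
      norm_num at this
      linarith
    obtain ⟨p, hpx, S, hS⟩ := hex
    intro i
    rw [mem_range]
    obtain ⟨h1, h2⟩ := two_points_le (A i) (B i) hS.1.two_le hpx
    refine times_le (hS.2.2 i).2 ?_
    split_ifs
    · exact h1
    · exact h2
  · rw [hcnt]
    simp only
    have h1 := hmdl x (t, q, c)
    have h2 := hmdl_le x (t, q, c)
    simp only at h1 h2
    obtain ⟨M, hM⟩ : ∃ M : ℝ, M = Pool.Agent.R418.GE.mdl (g x (t, q, c)) x := ⟨_, rfl⟩
    obtain ⟨b, hb⟩ : ∃ b : ℝ, b = base A B t q c x := ⟨_, rfl⟩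
    obtain ⟨k, hk⟩ : ∃ k : ℝ, k = count A B (fun i => (f i).eval (j : ℤ)) t q c x := ⟨_, rfl⟩
    rw [← hM, ← hb] at h1 h2
    rw [← hb, ← hk] at hbad
    rw [← hM, ← hk]
    have hs1 : √(max 1 M) ≤ √(max 1 b) := Real.sqrt_le_sqrt (max_le_max le_rfl h2)
    have hs2 : √b ≤ √(max 1 b) := Real.sqrt_le_sqrt (le_max_right _ _)
    have hs0 : 0 ≤ √(max 1 b) := Real.sqrt_nonneg _
    have hxd : 1 + 4 * (m * d : ℝ) * 2 ^ m ≤ (x : ℝ) ^ (δ / 2) := hX₁ x (hXb.trans hx1)
    have hmd : (0 : ℝ) ≤ m * d := by positivity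
    have hmd2 : (0 : ℝ) ≤ 4 * (m * d) * 2 ^ m := by positivity
    have hxd1 : 1 ≤ (x : ℝ) ^ (δ / 2) := by linarith
    have hsplit : (x : ℝ) ^ δ = (x : ℝ) ^ (δ / 2) * (x : ℝ) ^ (δ / 2) := by
      rw [← Real.rpow_add hx0]
      congr 1
      ring
    have h3 : |k - b / 2 ^ m| ≤ |k - M| + |M - b / 2 ^ m| := abs_sub_le _ _ _
    obtain ⟨w, hw⟩ : ∃ w : ℝ, w = 4 * (m * d) * 2 ^ m := ⟨_, rfl⟩
    rw [← hw] at hmd2 hxd h1
    have h4 : √(max 1 M) * (x : ℝ) ^ (δ / 2) + w * √b ≤
        √(max 1 b) * (x : ℝ) ^ δ := by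
      calc √(max 1 M) * (x : ℝ) ^ (δ / 2) + w * √b ≤
          √(max 1 b) * (x : ℝ) ^ (δ / 2) + w * √(max 1 b) := by gcongr
        _ = √(max 1 b) * ((x : ℝ) ^ (δ / 2) + w) := by ring
        _ ≤ √(max 1 b) * ((x : ℝ) ^ (δ / 2) * (x : ℝ) ^ (δ / 2)) := by
            apply mul_le_mul_of_nonneg_left _ hs0
            nlinarith
        _ = _ := by rw [← hsplit]
    linarith

end Pool.Agent.Results.MP_b89fd0_nt.PolynomialTwists
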