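import Pool.Agent.T2H58.DQ.Tws
import Pool.Agent.T2H58.DQ.Tor

set_option autoImplicit false

/-!
# Joint Koblitz numbers of elliptic curves twisted by `⌊f(n)⌋`, `f` smooth (Piatetski-Shapiro sequences)

Let `E_i : y² = x³ + A_i x + B_i`, `i < m`, be elliptic curves, `g_1, …, g_m` polynomials in `ℤ[t]` of degree between `1` and
`d` with product `G`, and `f` a smooth real function of polynomial growth which is not too close to a polynomial, for example
`f(n) = α n^c + P(n)`, `c > 0` not an integer, or `f(n) = α n log n + β n + γ`. Let `E_{i,j}` be the quadratic twist of `E_i` by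
`g_i(⌊f(j)⌋)`, `1 ≤ j ≤ N`. For almost all `j`, up to a proportion of at most `X ^ (-κ)` (any `κ`), the following holds for ALL
`x ≥ X` up to a fixed power of `N`, ALL `t_1, …, t_m` and all residue classes `c` modulo `q ≤ x`: the number of the primes
`p ≤ x`, `p ≡ c` modulo `q`, at which all the `E_{i,j}` have good reduction and `#E_{i,j}(F_p) / t_i` is a prime for ALL `i`, is
`2 ^ (-m)` times the number of the pairs of such a prime `p` (of good reduction of all the `E_i`) and a choice, for each `i`, of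
`E_i` or of its nontrivial quadratic twist modulo `p`, for which all the chosen curves have `t_i` times a prime number of points,
with an error of at most the square root of this number times `x ^ δ`, plus the number of the `p ≤ x` which divide the leading
coefficient of `G` or the resultant of `G` and `G'`.

Method. The integers `⌊f(n)⌋` are equidistributed modulo all `q ≤ N^θ` with an error `O(N^(1 - θ))` (`k`-th derivative test and
an inequality of Erdős-Turán type), so high moments of the counts over `j` are those of independent primes; the local densities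
are computed with the bound of Weil.
-/

namespace Pool.Agent.Results.MP_b89fd0_nt.RealPowerTwists

open Finset Polynomial

/-- `f` is `k` times differentiable at all `x ≥ x₀` (with derivatives `F 0 = f`, `F 1`, ..., `F k`), and `f^(k)` or
`-f^(k)` is nonincreasing on `[x₀, ∞)`, between `x ^ (-2 + η)` and `x ^ (-η)`, and at most `A` times its value at
`2 x`. -/
def Regular (k : ℕ) (x₀ η A : ℝ) (f : ℝ → ℝ) : Prop :=
  ∃ F : ℕ → ℝ → ℝ, F 0 = f ∧ (∀ j < k, ∀ x, x₀ ≤ x → HasDerivAt (F j) (F (j + 1) x) x) ∧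
    ∃ s : ℝ, (s = 1 ∨ s = -1) ∧ (∀ x, x₀ ≤ x → x ^ (-2 + η) ≤ s * F k x ∧ s * F k x ≤ x ^ (-η) ∧
      s * F k x ≤ A * (s * F k (2 * x))) ∧ ∀ x y, x₀ ≤ x → x ≤ y → s * F k y ≤ s * F k x

open Classical in
/-- The number of the points over `F_p`, with the point at infinity, of `y² = x³ + A x + B`. -/
noncomputable def points (A B : ℤ) (p : ℕ) : ℕ :=
  ((range p ×ˢ range p).filter (fun xy => (p : ℤ) ∣ (xy.2 : ℤ) ^ 2 - ((xy.1 : ℤ) ^ 3 + A * xy.1 + B))).card + 1

/-- `p` is a prime which does not divide `2 (4 A³ + 27 B²)`. -/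
def GoodPrime (A B : ℤ) (p : ℕ) : Prop := p.Prime ∧ ¬ ((p : ℤ) ∣ 2 * (4 * A ^ 3 + 27 * B ^ 2))

/-- `n` is `t` times a prime number. -/
def TimesPrime (t : ℕ) (n : ℤ) : Prop := ∃ ℓ : ℕ, ℓ.Prime ∧ n = t * ℓ

open Classical in
/-- the number of the primes `p ≤ x` with `p % q = c` of good reduction of all the twists `y² = x³ + A_i D_i² x + B_i D_i³`
for which the number of the points of the twist number `i` is `t_i` times a prime number, for all `i` -/
noncomputable def count {m : ℕ} (A B D : Fin m → ℤ) (t : Fin m → ℕ) (q c x : ℕ) : ℕ :=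
  ((range (x + 1)).filter (fun p => p.Prime ∧ p % q = c ∧ ∀ i, GoodPrime (A i * D i ^ 2) (B i * D i ^ 3) p ∧
    TimesPrime (t i) (points (A i * D i ^ 2) (B i * D i ^ 3) p))).card

open Classical in
/-- the number of the pairs of a prime `p ≤ x` with `p % q = c`, of good reduction of all the `y² = x³ + A_i x + B_i`, and of a set
`S` of indices, such that for `i ∈ S` the number of the points of the curve number `i`, and for `i ∉ S` the number of the points of
its nontrivial quadratic twist modulo `p`, that is `2 p + 2` minus the former number, is `t_i` times a prime number -/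
noncomputable def base {m : ℕ} (A B : Fin m → ℤ) (t : Fin m → ℕ) (q c x : ℕ) : ℕ :=
  ((range (x + 1) ×ˢ (univ : Finset (Finset (Fin m)))).filter (fun z => z.1.Prime ∧ z.1 % q = c ∧
    ∀ i, GoodPrime (A i) (B i) z.1 ∧
      TimesPrime (t i) (if i ∈ z.2 then (points (A i) (B i) z.1 : ℤ) else 2 * z.1 + 2 - points (A i) (B i) z.1))).card

open Classical in
/-- the number of the primes `p ≤ x` dividing the leading coefficient of `G` or the resultant of `G` and its derivative -/
noncomputable def ram (G : ℤ[X]) (x : ℕ) : ℕ :=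
  ((range (x + 1)).filter (fun p : ℕ => p.Prime ∧
    ((p : ℤ) ∣ G.leadingCoeff ∨ (p : ℤ) ∣ resultant G G.derivative))).card

/-- For some `x ≥ X` with `x ^ W ≤ N`, some `t_1, …, t_m`, some `q ≤ x` and some `c < q` the number of the primes `p ≤ x`,
`p ≡ c` modulo `q`, at which all the twists of the `E_i` by the `D_i` have good reduction and `t_i` times a prime number of points,
differs from `2 ^ (-m)` times the number `base` by more than `(max 1 base) ^ (1 / 2) x ^ δ + ram`. -/
def Bad {m : ℕ} (A B : Fin m → ℤ) (g : Fin m → ℤ[X]) (δ : ℝ) (W X N : ℕ) (D : Fin m → ℤ) : Prop :=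
  ∃ x : ℕ, X ≤ x ∧ x ^ W ≤ N ∧ ∃ (t : Fin m → ℕ) (q c : ℕ), 1 ≤ q ∧ q ≤ x ∧ c < q ∧
    √(max 1 (base A B t q c x : ℝ)) * (x : ℝ) ^ δ + ram (∏ i, g i) x <
      |(count A B D t q c x : ℝ) - (base A B t q c x : ℝ) / 2 ^ m|

/-- **Main theorem.** (1) For all `m`, `d`, `κ`, `δ > 0`, `k ≥ 2`, `x₀`, `0 < η < 1` and `A₀ ≥ 1` there are `W` and `X₀` such that
for all functions `f` with `Regular k x₀ η A₀ f`, all elliptic curves `y² = x³ + A_i x + B_i` and all polynomials `g_i`, `i < m`, of
degree between `1` and `d`, and for all `X ≥ X₀` and all `N`, the number of the `1 ≤ j ≤ N` for which for some `x ≥ X` with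
`x ^ W ≤ N`, some `t_1, …, t_m`, some `q ≤ x` and some `c < q` the number of the primes `p ≤ x`, `p ≡ c` modulo `q`, at which all
the twists of the `E_i` by the `g_i(⌊f(j)⌋)` have good reduction and `t_i` times a prime number of points, differs from `2 ^ (-m)`
times the number `base` by more than `(max 1 base) ^ (1 / 2) x ^ δ + ram`, is at most `X ^ (-κ) N`.
(2) If `α ≠ 0` and `c > 0` are real and `c` is not an integer then there are `x₀` and `0 < η < 1` such that for all
polynomials `P` with real coefficients of degree at most `⌊c⌋ + 1` the function `α x^c + P(x)` is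
`Regular (⌊c⌋ + 2) x₀ η 4`; if `α ≠ 0` is real then there is `x₀` such that all functions `α x log x + β x + γ` are
`Regular 2 x₀ (1/2) 4`. -/
theorem result :
    (∀ m d κ : ℕ, 1 ≤ m → ∀ δ : ℝ, 0 < δ → ∀ k : ℕ, 2 ≤ k → ∀ x₀ η A₀ : ℝ, 0 < η → η < 1 → 1 ≤ A₀ →
      ∃ W X₀ : ℕ, 1 ≤ W ∧ ∀ f : ℝ → ℝ, Regular k x₀ η A₀ f →
        ∀ (A B : Fin m → ℤ) (g : Fin m → ℤ[X]), (∀ i, 1 ≤ (g i).natDegree ∧ (g i).natDegree ≤ d) →
          ∀ X N : ℕ, X₀ ≤ X →
            (({j : ℕ | 1 ≤ j ∧ j ≤ N ∧ Bad A B g δ W X N (fun i => (g i).eval ⌊f j⌋)}).ncard : ℝ) * (X : ℝ) ^ κ ≤ N) ∧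
    (∀ α c : ℝ, α ≠ 0 → 0 < c → (∀ n : ℕ, c ≠ n) → ∃ x₀ η : ℝ, 0 < η ∧ η < 1 ∧ ∀ P : ℝ[X],
      P.natDegree ≤ ⌊c⌋₊ + 1 → Regular (⌊c⌋₊ + 2) x₀ η 4 (fun x => α * x ^ c + P.eval x)) ∧
    (∀ α : ℝ, α ≠ 0 → ∃ x₀ : ℝ, ∀ β γ : ℝ, Regular 2 x₀ (1 / 2) 4 (fun x => α * (x * Real.log x) + β * x + γ)) := by
  refine ⟨?_, fun α c hα hc hcn => Pool.Agent.T2H58.LU.regular_rpow α hα c hc hcn,
    fun α hα => Pool.Agent.T2H58.LU.regular_log α hα⟩
  intro m d κ hm δ hδ k hk x₀ η A₀ hη hη1 hA₀
  obtain ⟨θ, hθ, hθ1, C₁, hC₁, heq⟩ := Pool.Agent.T2H58.DQ.eq_reg k hk x₀ η hη hη1 A₀ hA₀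
  obtain ⟨W, X₀, hW, hmain⟩ := Pool.Agent.T2H58.DQ.tw_main m d κ hm δ hδ θ C₁ hθ hC₁
  refine ⟨W, X₀, hW, ?_⟩
  intro f hf A B g hg X N hX
  rcases Nat.eq_zero_or_pos N with rfl | hN
  · have h0 : {j : ℕ | 1 ≤ j ∧ j ≤ 0 ∧ Bad A B g δ W X 0 (fun i => (g i).eval ⌊f j⌋)} = ∅ := by
      ext j
      simp only [Set.mem_empty_iff_false, iff_false]
      rintro ⟨h1, h2, _⟩
      omega
    rw [h0]
    simp
  · exact hmain A B g hg X N (fun n => ⌊f n⌋) hX (fun q hq hqX v hv hvq => heq f hf N q hN hq hqX v hv hvq)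

end Pool.Agent.Results.MP_b89fd0_nt.RealPowerTwists
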